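import Pool.Agent.H5.OR.Targets3

set_option autoImplicit false

open scoped Classical

namespace Pool.Agent.H13.ORS

open ORg

/-- stars can be reindexed -/
theorem reidx {I I' : Type} (σ : I ≃ I') {H B : I' → Type} {A G : Type} [∀ i, Group (H i)]
    [∀ i, Group (B i)] [Group A] [Group G] (f : ∀ i, H i →* A) (g : ∀ i, H i →* B i) (a : A →* G)
    (b : ∀ i, B i →* G) (h : IsSt f g a b) :
    IsSt (fun i => f (σ i)) (fun i => g (σ i)) a (fun i => b (σ i)) where
  comm := fun i x => h.comm (σ i) x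
  lift := by
    intro K _ u v hv
    obtain ⟨v', hv'⟩ : ∃ v' : ∀ j, B j →* K, ∀ i, v' (σ i) = v i :=
      ⟨Equiv.piCongrLeft (fun j => B j →* K) σ v, fun i =>
        Equiv.piCongrLeft_apply_apply (fun j => B j →* K) σ v i⟩
    obtain ⟨k, hk1, hk2⟩ := h.lift K u v' (by
      intro j x
      obtain ⟨i, rfl⟩ := σ.surjective j
      rw [hv']
      exact hv i x)
    refine ⟨k, hk1, fun i x => ?_⟩
    rw [hk2, hv']
  uniq := by
    intro K _ k l h1 h2
    refine h.uniq K k l h1 ?_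
    intro j x
    obtain ⟨i, rfl⟩ := σ.surjective j
    exact h2 i x

/-- the map on the remaining free generators -/
def J {I : Type} {X Z : I → Type} {G : Type} [Group G] (iF : ∀ i, FreeGroup (X i ⊕ Z i) →* G) :
    FreeGroup (Σ i, Z i) →* G :=
  FreeGroup.lift (fun p => iF p.1 (FreeGroup.of (Sum.inr p.2)))

theorem J_of {I : Type} {X Z : I → Type} {G : Type} [Group G]
    (iF : ∀ i, FreeGroup (X i ⊕ Z i) →* G) (i : I) (z : Z i) :
    J iF (FreeGroup.of ⟨i, z⟩) = iF i (FreeGroup.of (Sum.inr z)) := by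
  simp [J]

theorem half {I : Type} {X Z X' Z' : I → Type} {P G P' G' : Type} [Group P] [Group G]
    [Group P'] [Group G'] (w : ∀ i, FreeGroup (X i)) (a : I → P)
    (iF : ∀ i, FreeGroup (X i ⊕ Z i) →* G) (iP : P →* G) (w' : ∀ i, FreeGroup (X' i))
    (a' : I → P') (iF' : ∀ i, FreeGroup (X' i ⊕ Z' i) →* G') (iP' : P' →* G')
    (st : IsSt (fun i => zpowersHom P (a i))
      (fun i => zpowersHom (FreeGroup (X i ⊕ Z i)) (fl (w i))) iP iF)
    (st' : IsSt (fun i => zpowersHom P' (a' i))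
      (fun i => zpowersHom (FreeGroup (X' i ⊕ Z' i)) (fl (w' i))) iP' iF')
    (γ : FreeGroup (Σ i, Z i) →* FreeGroup (Σ i, Z' i)) (β : P →* P')
    (α : ∀ i, FreeGroup (X i) →* FreeGroup (X' i)) (g : I → P')
    (h : ∀ i, (α i (w i) = w' i ∧ β (a i) = g i * a' i * (g i)⁻¹) ∨
      (α i (w i) = (w' i)⁻¹ ∧ β (a i) = g i * (a' i)⁻¹ * (g i)⁻¹)) :
    ∃ Φ : G →* G', (∀ x, Φ (iP x) = iP' (β x)) ∧
      (∀ i y, Φ (iF i (fl y)) = iP' (g i) * iF' i (fl (α i y)) * (iP' (g i))⁻¹) ∧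
      (∀ i (z : Z i), Φ (iF i (FreeGroup.of (Sum.inr z))) =
        J iF' (γ (FreeGroup.of ⟨i, z⟩))) := by
  have hc : ∀ i, iP' (a' i) = iF' i (fl (w' i)) := by
    intro i
    have := st'.comm i (Multiplicative.ofAdd 1)
    simpa using this
  let v : ∀ i, FreeGroup (X i ⊕ Z i) →* G' := fun i => FreeGroup.lift (Sum.elim
    (fun x => iP' (g i) * iF' i (fl (α i (FreeGroup.of x))) * (iP' (g i))⁻¹)
    (fun z => J iF' (γ (FreeGroup.of ⟨i, z⟩))))
  have v1 : ∀ i y, v i (fl y) = iP' (g i) * iF' i (fl (α i y)) * (iP' (g i))⁻¹ := by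
    intro i y
    have : (v i).comp fl = (MulAut.conj (iP' (g i))).toMonoidHom.comp
        ((iF' i).comp (fl.comp (α i))) := by
      ext x
      simp [v]
    have h2 := DFunLike.congr_fun this y
    simpa using h2
  have v2 : ∀ i (z : Z i), v i (FreeGroup.of (Sum.inr z)) = J iF' (γ (FreeGroup.of ⟨i, z⟩)) := by
    intro i z
    simp [v]
  have key : ∀ i, iP' (β (a i)) = v i (fl (w i)) := by
    intro i
    rw [v1]
    rcases h i with ⟨h1, h2⟩ | ⟨h1, h2⟩
    · rw [h1, h2, map_mul, map_mul, map_inv, hc]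
    · rw [h1, h2, map_mul, map_mul, map_inv, map_inv, map_inv, map_inv, hc]
  obtain ⟨Φ, h1, h2⟩ := st.lift G' (iP'.comp β) v (by
    intro i n
    simp only [zpowersHom_apply, map_zpow, MonoidHom.comp_apply, key])
  refine ⟨Φ, h1, ?_, ?_⟩
  · intro i y
    rw [h2, v1]
  · intro i z
    rw [h2, v2]

theorem half_J {I : Type} {X Z X' Z' : I → Type} {G G' : Type} [Group G] [Group G']
    (iF : ∀ i, FreeGroup (X i ⊕ Z i) →* G) (iF' : ∀ i, FreeGroup (X' i ⊕ Z' i) →* G')
    (γ : FreeGroup (Σ i, Z i) →* FreeGroup (Σ i, Z' i)) (Φ : G →* G')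
    (h : ∀ i (z : Z i), Φ (iF i (FreeGroup.of (Sum.inr z))) = J iF' (γ (FreeGroup.of ⟨i, z⟩)))
    (p : FreeGroup (Σ i, Z i)) : Φ (J iF p) = J iF' (γ p) := by
  have : Φ.comp (J iF) = (J iF').comp γ := by
    ext ⟨i, z⟩
    simp only [MonoidHom.comp_apply, J_of]
    exact h i z
  exact DFunLike.congr_fun this p

/-- the composite of the two halves -/
theorem compId {I : Type} {X Z X' Z' : I → Type} {P G P' G' : Type} [Group P] [Group G]
    [Group P'] [Group G'] (w : ∀ i, FreeGroup (X i)) (a : I → P)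
    (iF : ∀ i, FreeGroup (X i ⊕ Z i) →* G) (iP : P →* G)
    (iF' : ∀ i, FreeGroup (X' i ⊕ Z' i) →* G') (iP' : P' →* G')
    (st : IsSt (fun i => zpowersHom P (a i))
      (fun i => zpowersHom (FreeGroup (X i ⊕ Z i)) (fl (w i))) iP iF)
    (γ : FreeGroup (Σ i, Z i) ≃* FreeGroup (Σ i, Z' i)) (β : P ≃* P')
    (α : ∀ i, FreeGroup (X i) ≃* FreeGroup (X' i)) (g : I → P') (g' : I → P)
    (hg : ∀ i, β.symm (g i) * g' i = 1) (Φ : G →* G') (Ψ : G' →* G)
    (p1 : ∀ x, Φ (iP x) = iP' (β x))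
    (p2 : ∀ i y, Φ (iF i (fl y)) = iP' (g i) * iF' i (fl (α i y)) * (iP' (g i))⁻¹)
    (p3 : ∀ i (z : Z i), Φ (iF i (FreeGroup.of (Sum.inr z))) = J iF' (γ (FreeGroup.of ⟨i, z⟩)))
    (q1 : ∀ x, Ψ (iP' x) = iP (β.symm x))
    (q2 : ∀ i y, Ψ (iF' i (fl y)) = iP (g' i) * iF i (fl ((α i).symm y)) * (iP (g' i))⁻¹)
    (q3 : ∀ i (z : Z' i), Ψ (iF' i (FreeGroup.of (Sum.inr z))) =
      J iF (γ.symm (FreeGroup.of ⟨i, z⟩))) :
    ∀ x, Ψ (Φ x) = x := by
  have : Ψ.comp Φ = MonoidHom.id G := by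
    refine st.uniq G _ _ ?_ ?_
    · intro x
      simp only [MonoidHom.comp_apply, MonoidHom.id_apply]
      rw [p1, q1, MulEquiv.symm_apply_apply]
    · intro i x
      have e : (Ψ.comp Φ).comp (iF i) = iF i := by
        ext y
        rcases y with y | z
        · have e1 : (FreeGroup.of (Sum.inl y) : FreeGroup (X i ⊕ Z i)) = fl (FreeGroup.of y) := by
            simp
          simp only [MonoidHom.comp_apply]
          rw [e1, p2, map_mul, map_mul, map_inv, q1, q2, MulEquiv.symm_apply_apply]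
          have e2 : iP (β.symm (g i)) * iP (g' i) = 1 := by
            rw [← map_mul, hg, map_one]
          have e3 : iP (g' i) = (iP (β.symm (g i)))⁻¹ := (inv_eq_of_mul_eq_one_right e2).symm
          rw [e3]
          group
        · simp only [MonoidHom.comp_apply]
          rw [p3, half_J iF' iF γ.symm.toMonoidHom Ψ (by
            intro i z
            exact q3 i z)]
          simp [J_of]
      exact DFunLike.congr_fun e x
  intro x
  exact DFunLike.congr_fun this x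

theorem main0 {I : Type} {X Z X' Z' : I → Type} {P G P' G' : Type} [Group P] [Group G]
    [Group P'] [Group G'] (w : ∀ i, FreeGroup (X i)) (a : I → P)
    (iF : ∀ i, FreeGroup (X i ⊕ Z i) →* G) (iP : P →* G) (w' : ∀ i, FreeGroup (X' i))
    (a' : I → P') (iF' : ∀ i, FreeGroup (X' i ⊕ Z' i) →* G') (iP' : P' →* G')
    (st : IsSt (fun i => zpowersHom P (a i))
      (fun i => zpowersHom (FreeGroup (X i ⊕ Z i)) (fl (w i))) iP iF)
    (st' : IsSt (fun i => zpowersHom P' (a' i))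
      (fun i => zpowersHom (FreeGroup (X' i ⊕ Z' i)) (fl (w' i))) iP' iF')
    (γ : FreeGroup (Σ i, Z i) ≃* FreeGroup (Σ i, Z' i)) (β : P ≃* P')
    (α : ∀ i, FreeGroup (X i) ≃* FreeGroup (X' i)) (g : I → P')
    (h : ∀ i, (α i (w i) = w' i ∧ β (a i) = g i * a' i * (g i)⁻¹) ∨
      (α i (w i) = (w' i)⁻¹ ∧ β (a i) = g i * (a' i)⁻¹ * (g i)⁻¹)) :
    Nonempty (G ≃* G') := by
  obtain ⟨Φ, p1, p2, p3⟩ := half w a iF iP w' a' iF' iP' st st' γ.toMonoidHom β.toMonoidHom
    (fun i => (α i).toMonoidHom) g h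
  obtain ⟨Ψ, q1, q2, q3⟩ := half w' a' iF' iP' w a iF iP st' st γ.symm.toMonoidHom
    β.symm.toMonoidHom (fun i => (α i).symm.toMonoidHom) (fun i => (β.symm (g i))⁻¹) (by
      intro i
      rcases h i with ⟨h1, h2⟩ | ⟨h1, h2⟩
      · left
        constructor
        · change (α i).symm (w' i) = w i
          rw [← h1, MulEquiv.symm_apply_apply]
        · change β.symm (a' i) = (β.symm (g i))⁻¹ * a i * ((β.symm (g i))⁻¹)⁻¹
          apply β.injective
          simp only [map_mul, map_inv, MulEquiv.apply_symm_apply, h2]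
          group
      · right
        constructor
        · change (α i).symm (w' i) = (w i)⁻¹
          rw [MulEquiv.symm_apply_eq, map_inv, h1, inv_inv]
        · change β.symm (a' i) = (β.symm (g i))⁻¹ * (a i)⁻¹ * ((β.symm (g i))⁻¹)⁻¹
          apply β.injective
          simp only [map_mul, map_inv, MulEquiv.apply_symm_apply, h2]
          group)
  have c1 := compId w a iF iP iF' iP' st γ β α g (fun i => (β.symm (g i))⁻¹)
    (fun i => mul_inv_cancel _) Φ Ψ p1 p2 p3 q1 q2 q3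
  have c2 := compId w' a' iF' iP' iF iP st' γ.symm β.symm (fun i => (α i).symm)
    (fun i => (β.symm (g i))⁻¹) g (by
      intro i
      simp) Ψ Φ q1 q2 q3 p1 p2 p3
  exact ⟨{ toFun := Φ, invFun := Ψ, left_inv := c1, right_inv := c2, map_mul' := Φ.map_mul }⟩

theorem pf_MI : T_MI := by
  intro I X Z P G _ _ w a iF iP I' X' Z' P' G' _ _ w' a' iF' iP' st st' hγ hσ
  obtain ⟨γ⟩ := hγ
  obtain ⟨σ, β, hα⟩ := hσ
  choose α g h using hα
  have st2 := reidx σ _ _ iP' iF' st'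
  let γ' : FreeGroup (Σ i, Z' (σ i)) ≃* FreeGroup (Σ i, Z' i) :=
    FreeGroup.freeGroupCongr (Equiv.sigmaCongrLeft (β := Z') σ)
  exact main0 (Z' := fun i => Z' (σ i)) w a iF iP (fun i => w' (σ i)) (fun i => a' (σ i))
    (fun i => iF' (σ i)) iP' st st2 (γ.trans γ'.symm) β α g h

end Pool.Agent.H13.ORS
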